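import Mathlib

set_option autoImplicit false

/-!
# Mealy automata and the weakly reset property; a Mealy automaton simulating a queue system
-/

namespace Pool.Agent.R569.WR

/-- A Mealy automaton with set of states `Q` and (input and output) alphabet `A`. -/
structure Mealy (Q A : Type) where
  /-- the next state -/
  δ : Q → A → Q
  /-- the output letter -/
  lam : Q → A → A

namespace Mealy

variable {Q A : Type} (M : Mealy Q A)

/-- the state reached from `q` after reading a word -/
def run : Q → List A → Q
  | q, [] => q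
  | q, a :: u => run (M.δ q a) u

/-- the map of words computed from the state `q` -/
def out : Q → List A → List A
  | _, [] => []
  | q, a :: u => M.lam q a :: out (M.δ q a) u

/-- reset words: the set `Q · u` has exactly one element -/
def Reset (u : List A) : Prop := ∃ p, Set.range (fun q => M.run q u) = {p}

/-- weakly reset automata -/
def WeaklyReset : Prop :=
  (∃ u, M.Reset u) ∧ ∃ H : Set (List A), H.Nonempty ∧ (∀ u ∈ H, M.Reset u) ∧
    (∀ u ∈ H, ∀ v w, v ++ u ++ w ∈ H) ∧ ∀ u ∈ H, ∀ q, M.out q u ∈ H

theorem run_append (q : Q) (u v : List A) : M.run q (u ++ v) = M.run (M.run q u) v := by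
  induction u generalizing q with
  | nil => rfl
  | cons a u ih => exact ih _

theorem out_append (q : Q) (u v : List A) :
    M.out q (u ++ v) = M.out q u ++ M.out (M.run q u) v := by
  induction u generalizing q with
  | nil => rfl
  | cons a u ih => exact congrArg _ (ih _)

end Mealy

/-- letters -/
inductive Lt (S : Type) : Type
  | sh : Lt S
  | lf : Lt S
  | bl : Lt S
  | sy : S → Lt S

/-- states -/
inductive Qs (S : Type) : Type
  | idt : Qs S
  | w : Qs S
  | ini : Qs S
  | skip : Qs S
  | rd : S → Qs S
  | ps : List S → Qs S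
  | ap : List S → Qs S
  | sd : List S → Qs S

variable {S : Type} (P : S → S → List S) (w0 : List S)

/-- next state -/
def dl : Qs S → Lt S → Qs S
  | _, .sh => .idt
  | .idt, _ => .idt
  | .w, _ => .w
  | .ini, _ => .sd w0
  | .sd _, .lf => .sd w0
  | .sd l, _ => .sd l.tail
  | _, .lf => .skip
  | .skip, .bl => .skip
  | .skip, .sy x => .rd x
  | .rd _, .bl => .ap []
  | .rd x, .sy y => .ps (P x y)
  | .ps l, .bl => .ap l.tail
  | .ps l, .sy _ => .ps l
  | .ap l, _ => .ap l.tail

/-- output at the end mark, with the letters `l` still to be written -/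
def lsh : List S → Lt S
  | [] => .sh
  | _ :: _ => .bl

/-- output, with the letters `l` still to be written -/
def lwr (a : Lt S) : List S → Lt S
  | [] => a
  | s :: _ => .sy s

/-- output -/
def la : Qs S → Lt S → Lt S
  | .ini, _ => .lf
  | .sd l, .sh => lsh l
  | .ps l, .sh => lsh l
  | .ap l, .sh => lsh l
  | _, .sh => .sh
  | _, .lf => .lf
  | .idt, a => a
  | .w, a => a
  | .skip, _ => .bl
  | .rd _, _ => .bl
  | .ps l, .bl => lwr .bl l
  | .ps _, .sy s => .sy s
  | .ap l, a => lwr a l
  | .sd l, _ => lwr .bl l

/-- the automaton -/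
def M0 : Mealy (Qs S) (Lt S) := ⟨dl P w0, la⟩

variable {P w0}

theorem run_nil (q : Qs S) : (M0 P w0).run q [] = q := rfl
theorem out_nil (q : Qs S) : (M0 P w0).out q [] = [] := rfl
theorem run_cons (q : Qs S) (a : Lt S) (u : List (Lt S)) :
    (M0 P w0).run q (a :: u) = (M0 P w0).run (dl P w0 q a) u := rfl
theorem out_cons (q : Qs S) (a : Lt S) (u : List (Lt S)) :
    (M0 P w0).out q (a :: u) = la q a :: (M0 P w0).out (dl P w0 q a) u := rfl

theorem dl_sh (q : Qs S) : dl P w0 q .sh = .idt := by cases q <;> rfl

theorem out_idt (u : List (Lt S)) : (M0 P w0).out .idt u = u := by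
  induction u with
  | nil => rfl
  | cons a u ih =>
    rw [out_cons]
    cases a <;> simp only [la, dl, ih]

theorem out_w_ns (u : List (Lt S)) : (M0 P w0).out .w u = u := by
  induction u with
  | nil => rfl
  | cons a u ih =>
    rw [out_cons]
    cases a <;> simp only [la, dl, ih, out_idt]

theorem run_idt (u : List (Lt S)) : (M0 P w0).run .idt u = .idt := by
  induction u with
  | nil => rfl
  | cons a u ih =>
    rw [run_cons]
    cases a <;> exact ih

theorem run_w {u : List (Lt S)} (h : Lt.sh ∉ u) : (M0 P w0).run .w u = .w := by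
  induction u with
  | nil => rfl
  | cons a u ih =>
    rw [List.mem_cons, not_or] at h
    rw [run_cons]
    cases a with
    | sh => exact absurd rfl h.1
    | lf => exact ih h.2
    | bl => exact ih h.2
    | sy s => exact ih h.2

theorem run_sh {u : List (Lt S)} (h : Lt.sh ∈ u) (q : Qs S) : (M0 P w0).run q u = .idt := by
  induction u generalizing q with
  | nil => simp at h
  | cons a u ih =>
    rw [run_cons]
    by_cases ha : a = .sh
    · subst ha
      rw [dl_sh]
      exact run_idt _
    · rw [List.mem_cons] at h
      exact ih (h.resolve_left fun hh => ha hh.symm) _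

theorem la_ne_sh (q : Qs S) {a : Lt S} (ha : a ≠ .sh) : la q a ≠ .sh := by
  cases a with
  | sh => exact absurd rfl ha
  | lf => cases q <;> simp [la]
  | bl =>
    cases q with
    | ps l => cases l <;> simp [la, lwr]
    | ap l => cases l <;> simp [la, lwr]
    | sd l => cases l <;> simp [la, lwr]
    | _ => simp [la]
  | sy s =>
    cases q with
    | ps l => simp [la]
    | ap l => cases l <;> simp [la, lwr]
    | sd l => cases l <;> simp [la, lwr]
    | _ => simp [la]

theorem out_ns {u : List (Lt S)} (h : Lt.sh ∉ u) (q : Qs S) : Lt.sh ∉ (M0 P w0).out q u := by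
  induction u generalizing q with
  | nil => exact h
  | cons a u ih =>
    rw [List.mem_cons, not_or] at h
    rw [out_cons, List.mem_cons, not_or]
    exact ⟨fun hh => la_ne_sh q (fun hh => h.1 hh.symm) hh.symm, ih h.2 _⟩

/-- the states of the second kind -/
def Sk : Qs S → Prop
  | .skip => True
  | .rd _ => True
  | .ps _ => True
  | .ap _ => True
  | _ => False

/-- the states of the first kind -/
def Sd : Qs S → Prop
  | .sd _ => True
  | _ => False

theorem Sk_run {u : List (Lt S)} (h : Lt.sh ∉ u) {q : Qs S} (hq : Sk q) :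
    Sk ((M0 P w0).run q u) := by
  induction u generalizing q with
  | nil => exact hq
  | cons a u ih =>
    rw [List.mem_cons, not_or] at h
    rw [run_cons]
    apply ih h.2
    cases a with
    | sh => exact absurd rfl h.1
    | lf => cases q <;> simp_all [Sk, dl]
    | bl => cases q <;> simp_all [Sk, dl]
    | sy s => cases q <;> simp_all [Sk, dl]

theorem Sd_run {u : List (Lt S)} (h : Lt.sh ∉ u) {q : Qs S} (hq : Sd q) :
    Sd ((M0 P w0).run q u) := by
  induction u generalizing q with
  | nil => exact hq
  | cons a u ih =>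
    rw [List.mem_cons, not_or] at h
    rw [run_cons]
    apply ih h.2
    cases a with
    | sh => exact absurd rfl h.1
    | lf => cases q <;> simp_all [Sd, dl]
    | bl => cases q <;> simp_all [Sd, dl]
    | sy s => cases q <;> simp_all [Sd, dl]

theorem Sk_lf {q : Qs S} (hq : Sk q) : dl P w0 q .lf = .skip ∧ la q .lf = .lf := by
  cases q <;> simp_all [Sk, dl, la]

theorem Sd_lf {q : Qs S} (hq : Sd q) : dl P w0 q .lf = .sd w0 ∧ la q .lf = .lf := by
  cases q <;> simp_all [Sd, dl, la]

/-! ### Sweeps -/

/-- blanks -/
abbrev bls (n : ℕ) : List (Lt S) := List.replicate n .bl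

theorem bls_succ (n : ℕ) : bls (S := S) (n + 1) = .bl :: bls n := rfl

theorem ns_map (l : List S) : Lt.sh ∉ l.map Lt.sy := by simp

theorem ns_bls (n : ℕ) : Lt.sh ∉ bls (S := S) n := by simp

theorem skip_bls (n : ℕ) (v : List (Lt S)) :
    (M0 P w0).out .skip (bls n ++ v) = bls n ++ (M0 P w0).out .skip v := by
  induction n with
  | zero => rfl
  | succ n ih =>
    rw [bls_succ, List.cons_append, out_cons]
    exact congrArg _ ih

/-- the last letter -/
def endl (l : List S) (b : ℕ) : Lt S := if l.length ≤ b then .sh else .bl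

theorem lsh_eq (l : List S) : lsh l = endl l 0 := by
  cases l <;> simp [lsh, endl]

theorem ap_bls (l : List S) (b : ℕ) (r : List (Lt S)) :
    (M0 P w0).out (.ap l) (bls b ++ .sh :: r) =
      (l.take b).map .sy ++ (bls (b - l.length) ++ endl l b :: r) := by
  induction b generalizing l with
  | zero =>
    show (M0 P w0).out (.ap l) (.sh :: r) = _
    rw [out_cons, dl_sh, out_idt]
    simp [la, lsh_eq]
  | succ b ih =>
    rw [bls_succ, List.cons_append, out_cons]
    show lwr .bl l :: (M0 P w0).out (.ap l.tail) _ = _
    rw [ih]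
    cases l with
    | nil => simp [lwr, endl, List.replicate_succ]
    | cons s l =>
      simp only [lwr, List.tail_cons, List.take_succ_cons, List.map_cons, List.cons_append,
        List.length_cons, Nat.add_sub_add_right]
      congr 3
      simp [endl]

theorem ps_bls (l : List S) (b : ℕ) (r : List (Lt S)) :
    (M0 P w0).out (.ps l) (bls b ++ .sh :: r) =
      (l.take b).map .sy ++ (bls (b - l.length) ++ endl l b :: r) := by
  cases b with
  | zero =>
    show (M0 P w0).out (.ps l) (.sh :: r) = _
    rw [out_cons, dl_sh, out_idt]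
    simp [la, lsh_eq]
  | succ b =>
    rw [bls_succ, List.cons_append, out_cons]
    show lwr .bl l :: (M0 P w0).out (.ap l.tail) _ = _
    rw [ap_bls]
    cases l with
    | nil => simp [lwr, endl, List.replicate_succ]
    | cons s l =>
      simp only [lwr, List.tail_cons, List.take_succ_cons, List.map_cons, List.cons_append,
        List.length_cons, Nat.add_sub_add_right]
      congr 3
      simp [endl]

theorem ps_live (l t : List S) (v : List (Lt S)) :
    (M0 P w0).out (.ps l) (t.map .sy ++ v) = t.map .sy ++ (M0 P w0).out (.ps l) v := by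
  induction t with
  | nil => rfl
  | cons s t ih =>
    rw [List.map_cons, List.cons_append, out_cons]
    exact congrArg _ ih

/-- one sweep, at least two live letters -/
theorem sweep (a b : ℕ) (x y : S) (t : List S) (r : List (Lt S)) :
    (M0 P w0).out .skip (bls a ++ ((x :: y :: t).map .sy ++ (bls b ++ .sh :: r))) =
      bls (a + 2) ++ ((t ++ (P x y).take b).map .sy ++
        (bls (b - (P x y).length) ++ endl (P x y) b :: r)) := by
  rw [skip_bls]
  rw [List.map_cons, List.map_cons, List.cons_append, List.cons_append, out_cons, out_cons]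
  show bls a ++ .bl :: .bl :: (M0 P w0).out (.ps (P x y)) _ = _
  rw [ps_live, ps_bls, List.map_append, List.append_assoc]
  rw [show bls (S := S) (a + 2) = bls a ++ [.bl, .bl] by
    rw [bls, bls, List.replicate_add]; rfl]
  simp

/-- one sweep, one live letter -/
theorem sweep_one (a b : ℕ) (x : S) (r : List (Lt S)) :
    (M0 P w0).out .skip (bls a ++ (.sy x :: (bls b ++ .sh :: r))) =
      bls (a + 1 + b) ++ .sh :: r := by
  rw [skip_bls, out_cons]
  show bls a ++ .bl :: (M0 P w0).out (.rd x) _ = _
  cases b with
  | zero =>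
    show bls a ++ .bl :: (M0 P w0).out (.rd x) (.sh :: r) = _
    rw [out_cons, dl_sh, out_idt]
    show bls a ++ .bl :: .sh :: r = _
    rw [Nat.add_zero, bls, bls, List.replicate_succ']
    simp
  | succ b =>
    rw [bls_succ, List.cons_append, out_cons]
    show bls a ++ .bl :: .bl :: (M0 P w0).out (.ap []) _ = _
    rw [ap_bls]
    have e1 : bls (S := S) (a + 1 + (b + 1)) = bls a ++ (.bl :: .bl :: bls b) := by
      rw [show a + 1 + (b + 1) = a + (b + 1 + 1) by omega, bls, List.replicate_add]
      rfl
    rw [e1]
    simp [endl]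

/-- one sweep, no live letter -/
theorem sweep_zero (a : ℕ) (r : List (Lt S)) :
    (M0 P w0).out .skip (bls a ++ .sh :: r) = bls a ++ .sh :: r := by
  rw [skip_bls, out_cons, dl_sh, out_idt]
  rfl

/-- seeding -/
theorem seed (l : List S) {v : List (Lt S)} (hv : Lt.sh ∉ v) (hv' : Lt.lf ∉ v)
    (r : List (Lt S)) :
    (M0 P w0).out (.sd l) (v ++ .sh :: r) =
      (l.take v.length).map .sy ++ (bls (v.length - l.length) ++ endl l v.length :: r) := by
  induction v generalizing l with
  | nil =>
    show (M0 P w0).out (.sd l) (.sh :: r) = _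
    rw [out_cons, dl_sh, out_idt]
    simp [la, lsh_eq]
  | cons a v ih =>
    rw [List.mem_cons, not_or] at hv hv'
    rw [List.cons_append, out_cons]
    have h1 : dl P w0 (.sd l) a = .sd l.tail ∧ la (.sd l) a = lwr .bl l := by
      cases a with
      | sh => exact absurd rfl hv.1
      | lf => exact absurd rfl hv'.1
      | bl => exact ⟨rfl, rfl⟩
      | sy s => exact ⟨rfl, rfl⟩
    rw [h1.1, h1.2, ih l.tail hv.2 hv'.2]
    cases l with
    | nil => simp [lwr, endl, List.replicate_succ]
    | cons s l =>
      simp only [lwr, List.tail_cons, List.take_succ_cons, List.map_cons, List.cons_append,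
        List.length_cons, Nat.add_sub_add_right]
      congr 3
      simp [endl]

/-! ### Runs of the queue system -/

variable (P w0)

/-- one step of the queue system -/
def qs : List S → List S
  | x :: y :: t => t ++ P x y
  | l => l

/-- the run of the queue system -/
def zs : ℕ → List S
  | 0 => w0
  | j + 1 => qs P (zs j)

variable {P w0}

/-- apply several states -/
def app (L : List (Qs S)) (v : List (Lt S)) : List (Lt S) :=
  L.foldr (fun q v => (M0 P w0).out q v) v

/-- configurations -/
def Cf (P : S → S → List S) (w0 : List S) (J N : ℕ) (v : List (Lt S)) : Prop :=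
  v = .lf :: (bls N ++ [.sh]) ∨ ∃ j ≤ J, ∃ b, 2 * j + (zs P w0 j).length + b = N ∧
    v = .lf :: (bls (2 * j) ++ ((zs P w0 j).map .sy ++ (bls b ++ [.sh])))

theorem Cf_seed {J N : ℕ} {v : List (Lt S)} (h : Cf P w0 J N v) :
    ∃ c, v = .lf :: (c ++ [.sh]) ∧ c.length = N ∧ Lt.sh ∉ c ∧ Lt.lf ∉ c := by
  rcases h with rfl | ⟨j, _, b, hb, rfl⟩
  · exact ⟨bls N, rfl, by simp, by simp, by simp⟩
  · refine ⟨bls (2 * j) ++ ((zs P w0 j).map .sy ++ bls b), by simp, ?_, by simp, by simp⟩
    simp
    omega

theorem Cf_sh {J N : ℕ} {v : List (Lt S)} (h : Cf P w0 J N v) : Lt.sh ∈ v := by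
  obtain ⟨c, rfl, _⟩ := Cf_seed h
  simp

theorem Cf_out {J N : ℕ} (hJ : (zs P w0 J).length < 2)
    (hN : ∀ j ≤ J, 2 * j + (zs P w0 j).length ≤ N) {v : List (Lt S)} (h : Cf P w0 J N v)
    (q : Qs S) : Cf P w0 J N ((M0 P w0).out q v) := by
  have hsd : ∀ c : List (Lt S), c.length = N → Lt.sh ∉ c → Lt.lf ∉ c →
      Cf P w0 J N (.lf :: (M0 P w0).out (.sd w0) (c ++ [.sh])) := by
    intro c h1 h2 h3
    rw [seed w0 h2 h3, h1]
    have h0 := hN 0 (Nat.zero_le _)
    simp only [Nat.mul_zero, Nat.zero_add] at h0
    change w0.length ≤ N at h0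
    right
    refine ⟨0, Nat.zero_le _, N - w0.length, ?_, ?_⟩
    · show 2 * 0 + w0.length + _ = _
      omega
    · rw [List.take_of_length_le h0]
      simp [endl, h0, zs]
  have hsk : Cf P w0 J N (.lf :: (M0 P w0).out .skip v.tail) := by
    rcases h with rfl | ⟨j, hj, b, hb, rfl⟩
    · left
      show Lt.lf :: (M0 P w0).out .skip (bls N ++ [.sh]) = _
      rw [sweep_zero]
    · show Cf P w0 J N (.lf :: (M0 P w0).out .skip
        (bls (2 * j) ++ ((zs P w0 j).map .sy ++ (bls b ++ [.sh]))))
      rcases hz : zs P w0 j with _ | ⟨x, _ | ⟨y, t⟩⟩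
      · rw [hz] at hb
        left
        simp only [List.length_nil] at hb
        rw [List.map_nil, List.nil_append, ← List.append_assoc, bls, bls, ← List.replicate_add,
          sweep_zero, show 2 * j + b = N by omega]
      · rw [hz] at hb
        left
        simp only [List.length_cons, List.length_nil] at hb
        rw [List.map_cons, List.map_nil, List.cons_append, List.nil_append, sweep_one,
          show 2 * j + 1 + b = N by omega]
      · right
        have hne : j ≠ J := by
          rintro rfl
          rw [hz] at hJ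
          simp at hJ
        have hz' : zs P w0 (j + 1) = t ++ P x y := by
          show qs P (zs P w0 j) = _
          rw [hz]
          rfl
        have h1 := hN (j + 1) (by omega)
        rw [hz'] at h1
        rw [hz] at hb
        simp only [List.length_append, List.length_cons] at h1 hb
        refine ⟨j + 1, by omega, b - (P x y).length, ?_, ?_⟩
        · rw [hz', List.length_append]
          omega
        · rw [sweep, List.take_of_length_le (by omega), hz']
          have : endl (P x y) b = .sh := by
            unfold endl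
            rw [if_pos (by omega)]
          rw [this]
          rfl
  obtain ⟨c, hc, h1, h2, h3⟩ := Cf_seed h
  subst hc
  rw [out_cons]
  cases q with
  | idt =>
    show Cf P w0 J N (.lf :: (M0 P w0).out .idt _)
    rw [out_idt]
    exact h
  | w =>
    show Cf P w0 J N (.lf :: (M0 P w0).out .w _)
    rw [out_w_ns]
    exact h
  | ini => exact hsd c h1 h2 h3
  | sd l => exact hsd c h1 h2 h3
  | skip => exact hsk
  | rd x => exact hsk
  | ps l => exact hsk
  | ap l => exact hsk

/-- If the queue system stops, some word keeps its end mark under all products. -/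
theorem safe (h : ∃ J, (zs P w0 J).length < 2) :
    ∃ v : List (Lt S), ∀ L : List (Qs S), Lt.sh ∈ app (P := P) (w0 := w0) L v := by
  obtain ⟨J, hJ⟩ := h
  let N := (Finset.range (J + 1)).sup (fun j => 2 * j + (zs P w0 j).length)
  have hN : ∀ j ≤ J, 2 * j + (zs P w0 j).length ≤ N := fun j hj =>
    Finset.le_sup (f := fun j => 2 * j + (zs P w0 j).length) (Finset.mem_range.2 (by omega))
  refine ⟨.lf :: (bls N ++ [.sh]), fun L => Cf_sh (P := P) (w0 := w0) (J := J) (N := N) ?_⟩
  induction L with
  | nil => exact Or.inl rfl
  | cons q L ih => exact Cf_out hJ hN ih q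

/-- number of end marks -/
def cnt : List (Lt S) → ℕ
  | [] => 0
  | .sh :: v => cnt v + 1
  | _ :: v => cnt v

theorem cnt_append (u v : List (Lt S)) : cnt (u ++ v) = cnt u + cnt v := by
  induction u with
  | nil => simp [cnt]
  | cons a u ih => cases a <;> simp only [List.cons_append, cnt, ih]; omega

theorem cnt_ns {u : List (Lt S)} (h : Lt.sh ∉ u) : cnt u = 0 := by
  induction u with
  | nil => rfl
  | cons a u ih =>
    rw [List.mem_cons, not_or] at h
    cases a with
    | sh => exact absurd rfl h.1
    | lf => exact ih h.2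
    | bl => exact ih h.2
    | sy s => exact ih h.2

theorem first_sh {v : List (Lt S)} (h : Lt.sh ∈ v) :
    ∃ p r, v = p ++ .sh :: r ∧ Lt.sh ∉ p := by
  classical
  induction v with
  | nil => simp at h
  | cons a v ih =>
    by_cases ha : a = .sh
    · subst ha
      exact ⟨[], v, rfl, by simp⟩
    · rw [List.mem_cons] at h
      obtain ⟨p, r, rfl, hp⟩ := ih (h.resolve_left fun hh => ha hh.symm)
      refine ⟨a :: p, r, rfl, ?_⟩
      rw [List.mem_cons, not_or]
      exact ⟨fun hh => ha hh.symm, hp⟩

theorem last_lf (v : List (Lt S)) : Lt.lf ∉ v ∨ ∃ p r, v = p ++ .lf :: r ∧ Lt.lf ∉ r := by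
  induction v with
  | nil => exact Or.inl (by simp)
  | cons a v ih =>
    rcases ih with ih | ⟨p, r, rfl, hr⟩
    · by_cases ha : a = .lf
      · subst ha
        exact Or.inr ⟨[], v, rfl, ih⟩
      · left
        rw [List.mem_cons, not_or]
        exact ⟨fun hh => ha hh.symm, ih⟩
    · exact Or.inr ⟨a :: p, r, rfl, hr⟩

/-- commands -/
def Cm (L : List (Qs S)) : Prop := ∀ q ∈ L, q = .ini ∨ q = .skip

theorem app_append (L L' : List (Qs S)) (v : List (Lt S)) :
    app (P := P) (w0 := w0) (L ++ L') v =
      app (P := P) (w0 := w0) L (app (P := P) (w0 := w0) L' v) := by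
  unfold app
  rw [List.foldr_append]

/-- one command `ini` -/
theorem ini_out {p r : List (Lt S)} (hp : Lt.sh ∉ p) :
    (cnt ((M0 P w0).out .ini (p ++ .sh :: r)) ≤ cnt r) ∨
    ∃ p' n, Lt.sh ∉ p' ∧ w0.length ≤ n ∧ (M0 P w0).out .ini (p ++ .sh :: r) =
      p' ++ .lf :: (w0.map .sy ++ (bls (n - w0.length) ++ .sh :: r)) := by
  -- the general statement for the end of the word
  have key : ∀ (p' v : List (Lt S)), Lt.sh ∉ p' → Lt.sh ∉ v → Lt.lf ∉ v →
      (cnt (p' ++ .lf :: (M0 P w0).out (.sd w0) (v ++ .sh :: r)) ≤ cnt r) ∨
      ∃ p'' n, Lt.sh ∉ p'' ∧ w0.length ≤ n ∧ p' ++ .lf :: (M0 P w0).out (.sd w0) (v ++ .sh :: r) =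
      p'' ++ .lf :: (w0.map .sy ++ (bls (n - w0.length) ++ .sh :: r)) := by
    intro p' v h1 h2 h3
    rw [seed w0 h2 h3]
    by_cases h4 : w0.length ≤ v.length
    · right
      refine ⟨p', v.length, h1, h4, ?_⟩
      rw [List.take_of_length_le h4]
      simp [endl, h4]
    · left
      have h5 : endl w0 v.length = .bl := by
        unfold endl
        rw [if_neg h4]
      rw [h5, cnt_append, cnt_ns h1]
      simp only [cnt, cnt_append]
      rw [cnt_ns (ns_map _), cnt_ns (ns_bls _)]
      omega
  cases p with
  | nil =>
    left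
    show cnt ((M0 P w0).out .ini (.sh :: r)) ≤ _
    rw [out_cons, dl_sh, out_idt]
    exact le_rfl
  | cons a p =>
    rw [List.mem_cons, not_or] at hp
    have h1 : dl P w0 .ini a = .sd w0 := by
      cases a with
      | sh => exact absurd rfl hp.1
      | _ => rfl
    have h1' : la (.ini : Qs S) a = .lf := by cases a <;> rfl
    rw [List.cons_append, out_cons, h1, h1']
    rcases last_lf p with h2 | ⟨p1, p2, rfl, h2⟩
    · exact key [] p (by simp) hp.2 h2
    · have hp1 : Lt.sh ∉ p1 := fun hh => hp.2 (List.mem_append_left _ hh)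
      have hp2 : Lt.sh ∉ p2 := fun hh =>
        hp.2 (List.mem_append_right _ (List.mem_cons_of_mem _ hh))
      have h3 : Sd ((M0 P w0).run (.sd w0) p1) := Sd_run hp1 (by simp [Sd])
      rw [List.append_assoc, List.cons_append, Mealy.out_append, out_cons, (Sd_lf h3).1,
        (Sd_lf (P := P) (w0 := w0) h3).2]
      exact key (.lf :: (M0 P w0).out (.sd w0) p1) p2 (by
        rw [List.mem_cons, not_or]
        exact ⟨by simp, out_ns hp1 _⟩) hp2 h2

/-- one command `skip` -/
theorem skip_out {p v : List (Lt S)} (hp : Lt.sh ∉ p) :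
    (M0 P w0).out .skip (p ++ .lf :: v) =
      (M0 P w0).out .skip p ++ .lf :: (M0 P w0).out .skip v := by
  have h3 : Sk ((M0 P w0).run .skip p) := Sk_run hp (by simp [Sk])
  rw [Mealy.out_append, out_cons, (Sk_lf h3).1, (Sk_lf (P := P) (w0 := w0) h3).2]

/-- many commands `skip` -/
theorem skips (hns : ∀ j, 2 ≤ (zs P w0 j).length) {p r : List (Lt S)} (hp : Lt.sh ∉ p) {n : ℕ}
    (hn : w0.length ≤ n) (k : ℕ) :
    ∃ L : List (Qs S), Cm L ∧
      (cnt (app (P := P) (w0 := w0) L
        (p ++ .lf :: (w0.map .sy ++ (bls (n - w0.length) ++ .sh :: r)))) ≤ cnt r ∨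
      ∃ p' b, Lt.sh ∉ p' ∧ 2 * k + (zs P w0 k).length + b = n ∧ app (P := P) (w0 := w0) L
        (p ++ .lf :: (w0.map .sy ++ (bls (n - w0.length) ++ .sh :: r))) =
          p' ++ .lf :: (bls (2 * k) ++ ((zs P w0 k).map .sy ++ (bls b ++ .sh :: r)))) := by
  induction k with
  | zero =>
    refine ⟨[], by simp [Cm], Or.inr ⟨p, n - w0.length, hp, ?_, ?_⟩⟩
    · show 2 * 0 + w0.length + _ = n
      omega
    · simp [app, zs]
  | succ k ih =>
    obtain ⟨L, hL, h | ⟨p', b, hp', hb, h⟩⟩ := ih
    · exact ⟨L, hL, Or.inl h⟩
    · refine ⟨.skip :: L, ?_, ?_⟩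
      · intro q hq
        rw [List.mem_cons] at hq
        rcases hq with rfl | hq
        · exact Or.inr rfl
        · exact hL q hq
      have h1 : app (P := P) (w0 := w0) (.skip :: L)
        (p ++ .lf :: (w0.map .sy ++ (bls (n - w0.length) ++ .sh :: r))) =
          (M0 P w0).out .skip (app (P := P) (w0 := w0) L
        (p ++ .lf :: (w0.map .sy ++ (bls (n - w0.length) ++ .sh :: r)))) := rfl
      rw [h1, h, skip_out hp']
      have hlen := hns k
      rcases hz : zs P w0 k with _ | ⟨x, _ | ⟨y, t⟩⟩
      · rw [hz] at hlen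
        simp at hlen
      · rw [hz] at hlen
        simp at hlen
      · have hz' : zs P w0 (k + 1) = t ++ P x y := by
          show qs P (zs P w0 k) = _
          rw [hz]
          rfl
        rw [sweep]
        by_cases h4 : (P x y).length ≤ b
        · right
          refine ⟨(M0 P w0).out .skip p', b - (P x y).length, out_ns hp' _, ?_, ?_⟩
          · rw [hz', List.length_append]
            rw [hz] at hb
            simp only [List.length_cons] at hb
            omega
          · have : endl (P x y) b = .sh := by
              unfold endl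
              rw [if_pos h4]
            rw [this, List.take_of_length_le h4, hz']
            rfl
        · left
          have h5 : endl (P x y) b = .bl := by
            unfold endl
            rw [if_neg h4]
          rw [h5, cnt_append, cnt_ns (out_ns hp' _)]
          simp only [cnt, cnt_append]
          rw [cnt_ns (ns_map _), cnt_ns (ns_bls _), cnt_ns (ns_bls _)]
          omega

/-- If the queue system does not stop, every word loses all its end marks under some product. -/
theorem unsafe_ (hns : ∀ j, 2 ≤ (zs P w0 j).length) (v : List (Lt S)) :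
    ∃ L : List (Qs S), Cm L ∧ Lt.sh ∉ app (P := P) (w0 := w0) L v := by
  classical
  induction hc : cnt v using Nat.strong_induction_on generalizing v with
  | _ c ih =>
    by_cases hv : Lt.sh ∈ v
    · obtain ⟨p, r, rfl, hp⟩ := first_sh hv
      have hlt : cnt r < c := by
        rw [← hc, cnt_append]
        simp only [cnt]
        omega
      have : ∃ L : List (Qs S), Cm L ∧ cnt (app (P := P) (w0 := w0) L (p ++ .sh :: r)) ≤ cnt r := by
        have hini : Cm [(.ini : Qs S)] := by
          intro q hq
          rw [List.mem_singleton] at hq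
          exact Or.inl hq
        rcases ini_out (P := P) (w0 := w0) (r := r) hp with h | ⟨p', n, hp', hn, h⟩
        · exact ⟨[.ini], hini, h⟩
        · obtain ⟨L, hL, h1 | ⟨p'', b, _, hb, _⟩⟩ := skips hns (r := r) hp' hn (n + 1)
          · refine ⟨L ++ [.ini], ?_, ?_⟩
            · intro q hq
              rw [List.mem_append] at hq
              rcases hq with hq | hq
              · exact hL q hq
              · exact hini q hq
            · rw [app_append]
              have : app (P := P) (w0 := w0) [.ini] (p ++ .sh :: r) =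
                (M0 P w0).out .ini (p ++ .sh :: r) := rfl
              rw [this, h]
              exact h1
          · omega
      obtain ⟨L, hL, h1⟩ := this
      obtain ⟨L', hL', h2⟩ := ih _ (lt_of_le_of_lt h1 hlt) (app (P := P) (w0 := w0) L _) rfl
      refine ⟨L' ++ L, ?_, ?_⟩
      · intro q hq
        rw [List.mem_append] at hq
        rcases hq with hq | hq
        · exact hL' q hq
        · exact hL q hq
      · rw [app_append]
        exact h2
    · exact ⟨[], by simp [Cm], hv⟩

end Pool.Agent.R569.WR
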