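import Pool.Agent.R569.WR.Basic

set_option autoImplicit false

/-!
# Copies of the automaton, and its tables
-/

namespace Pool.Agent.R569.WR

variable {S : Type} {P : S → S → List S} {w0 : List S} {Q A : Type}

/-- The automaton `M` is a copy of a part of the automaton `M0 P w0`. -/
structure Rep (M : Mealy Q A) (P : S → S → List S) (w0 : List S) where
  ι : Q → Qs S
  d : A → Lt S
  hι : Function.Injective ι
  hd : Function.Surjective d
  hδ : ∀ q a, ι (M.δ q a) = dl P w0 (ι q) (d a)
  hl : ∀ q a, d (M.lam q a) = la (ι q) (d a)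
  q0 : Q
  h0 : ι q0 = .idt
  q1 : Q
  h1 : ι q1 = .w
  q2 : Q
  h2 : ι q2 = .ini
  q3 : Q
  h3 : ι q3 = .skip

variable {M : Mealy Q A} (R : Rep M P w0)

include R

theorem Rep.run (q : Q) (u : List A) : R.ι (M.run q u) = (M0 P w0).run (R.ι q) (u.map R.d) := by
  induction u generalizing q with
  | nil => rfl
  | cons a u ih =>
    show R.ι (M.run (M.δ q a) u) = (M0 P w0).run (dl P w0 (R.ι q) (R.d a)) (u.map R.d)
    rw [ih, R.hδ]

theorem Rep.out (q : Q) (u : List A) :
    (M.out q u).map R.d = (M0 P w0).out (R.ι q) (u.map R.d) := by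
  induction u generalizing q with
  | nil => rfl
  | cons a u ih =>
    show R.d (M.lam q a) :: (M.out (M.δ q a) u).map R.d =
      la (R.ι q) (R.d a) :: (M0 P w0).out (dl P w0 (R.ι q) (R.d a)) (u.map R.d)
    rw [ih, R.hδ, R.hl]

theorem Rep.reset_iff (u : List A) : M.Reset u ↔ Lt.sh ∈ u.map R.d := by
  constructor
  · rintro ⟨p, hp⟩
    by_contra hn
    have e0 : M.run R.q0 u = p := by
      have : M.run R.q0 u ∈ Set.range (fun q => M.run q u) := ⟨_, rfl⟩
      rwa [hp] at this
    have e1 : M.run R.q1 u = p := by
      have : M.run R.q1 u ∈ Set.range (fun q => M.run q u) := ⟨_, rfl⟩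
      rwa [hp] at this
    have e2 := R.run R.q0 u
    have e3 := R.run R.q1 u
    rw [R.h0, run_idt, e0] at e2
    rw [R.h1, run_w hn, e1, e2] at e3
    cases e3
  · intro h
    refine ⟨M.run R.q0 u, ?_⟩
    ext p
    constructor
    · rintro ⟨q, rfl⟩
      apply R.hι
      rw [R.run, R.run, run_sh h, run_sh h]
    · rintro rfl
      exact ⟨_, rfl⟩

omit R in
theorem app_split (L : List (Qs S)) (v : List (Lt S)) :
    ∃ L' : List (Qs S), ∀ u, app (P := P) (w0 := w0) L (v ++ u) =
      app (P := P) (w0 := w0) L v ++ app (P := P) (w0 := w0) L' u := by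
  induction L with
  | nil => exact ⟨[], fun u => rfl⟩
  | cons q L ih =>
    obtain ⟨L', h⟩ := ih
    refine ⟨(M0 P w0).run q (app (P := P) (w0 := w0) L v) :: L', fun u => ?_⟩
    show (M0 P w0).out q (app (P := P) (w0 := w0) L (v ++ u)) = _
    rw [h, Mealy.out_append]
    rfl

theorem Rep.weaklyReset_iff : M.WeaklyReset ↔ ∃ J, (zs P w0 J).length < 2 := by
  constructor
  · rintro ⟨_, H, ⟨u, hu⟩, h1, h2, h3⟩
    by_contra hn
    push Not at hn
    obtain ⟨L, hL, h4⟩ := unsafe_ hn (u.map R.d)
    have key : ∀ L : List (Qs S), Cm L → ∃ u' ∈ H, u'.map R.d =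
        app (P := P) (w0 := w0) L (u.map R.d) := by
      intro L hL
      induction L with
      | nil => exact ⟨u, hu, rfl⟩
      | cons q L ih =>
        obtain ⟨u', hu', h5⟩ := ih (fun q hq => hL q (List.mem_cons_of_mem _ hq))
        rcases hL q (by simp) with rfl | rfl
        · refine ⟨M.out R.q2 u', h3 _ hu' _, ?_⟩
          rw [R.out, R.h2, h5]
          rfl
        · refine ⟨M.out R.q3 u', h3 _ hu' _, ?_⟩
          rw [R.out, R.h3, h5]
          rfl
    obtain ⟨u', hu', h5⟩ := key L hL
    rw [← h5] at h4
    exact h4 ((R.reset_iff u').1 (h1 _ hu'))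
  · intro h
    obtain ⟨v, hv⟩ := safe h
    obtain ⟨s, hs⟩ := R.hd .sh
    refine ⟨⟨[s], (R.reset_iff _).2 (by simp [hs])⟩,
      {u | ∀ L : List (Qs S), Lt.sh ∈ app (P := P) (w0 := w0) L (u.map R.d)}, ?_, ?_, ?_, ?_⟩
    · have hm : Function.Surjective (List.map R.d) := List.map_surjective_iff.2 R.hd
      obtain ⟨u, hu⟩ := hm v
      refine ⟨u, ?_⟩
      rw [Set.mem_ofPred_eq, hu]
      exact hv
    · intro u hu
      exact (R.reset_iff u).2 (hu [])
    · intro u hu v w L
      rw [List.map_append, List.map_append, List.append_assoc]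
      obtain ⟨L', h1⟩ := app_split (P := P) (w0 := w0) L (v.map R.d)
      obtain ⟨L'', h2⟩ := app_split (P := P) (w0 := w0) L' (u.map R.d)
      rw [h1, h2]
      exact List.mem_append_right _ (List.mem_append_left _ (hu L'))
    · intro u hu q L
      rw [R.out]
      have := hu (L ++ [R.ι q])
      rwa [app_append] at this

omit R

/-! ### Tables -/

/-- `T` is the table of a Mealy automaton with states `0, …, T.length - 1` and letters
`0, …, m - 1`: the row of a state lists, for each letter, the next state and the output letter. -/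
def Valid (T : List (List (ℕ × ℕ))) (m : ℕ) : Prop :=
  0 < T.length ∧ 0 < m ∧ ∀ r ∈ T, r.length = m ∧ ∀ x ∈ r, x.1 < T.length ∧ x.2 < m

theorem Valid.lt {T : List (List (ℕ × ℕ))} {m : ℕ} (h : Valid T m) (q : Fin T.length)
    (a : Fin m) : (a : ℕ) < (T[(q : ℕ)]).length := by
  rw [(h.2.2 _ (List.getElem_mem q.2)).1]
  exact a.2

/-- the automaton given by a table -/
def ofTable (T : List (List (ℕ × ℕ))) (m : ℕ) (h : Valid T m) :
    Mealy (Fin T.length) (Fin m) where
  δ q a := ⟨((T[(q : ℕ)])[(a : ℕ)]'(h.lt q a)).1,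
    ((h.2.2 _ (List.getElem_mem q.2)).2 _ (List.getElem_mem (h.lt q a))).1⟩
  lam q a := ⟨((T[(q : ℕ)])[(a : ℕ)]'(h.lt q a)).2,
    ((h.2.2 _ (List.getElem_mem q.2)).2 _ (List.getElem_mem (h.lt q a))).2⟩

section tab

variable [Fintype S] (P w0)

/-- bound on the lengths of the produced words -/
noncomputable def Bd : ℕ := Finset.univ.sup fun x : S × S => (P x.1 x.2).length

/-- the states which do not depend on the input -/
def Fxd : Set (Qs S) := {q | match q with
  | .sd _ => False
  | .ps l => l.length ≤ Bd P
  | .ap l => l.length ≤ Bd P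
  | _ => True}

theorem Fxd_finite : (Fxd P).Finite := by
  have h1 : Set.Finite {l : List S | l.length ≤ Bd P} := List.finite_length_le _ _
  have : Fxd P ⊆ {.idt, .w, .ini, .skip} ∪ Set.range (Qs.rd : S → Qs S) ∪
      Qs.ps '' {l : List S | l.length ≤ Bd P} ∪ Qs.ap '' {l : List S | l.length ≤ Bd P} := by
    intro q hq
    cases q with
    | idt => simp
    | w => simp
    | ini => simp
    | skip => simp
    | rd x => simp
    | ps l => exact Or.inl (Or.inr ⟨l, hq, rfl⟩)
    | ap l => exact Or.inr ⟨l, hq, rfl⟩
    | sd l => exact absurd hq id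
  exact ((((Set.toFinite _).union (Set.finite_range _)).union (h1.image _)).union
    (h1.image _)).subset this

noncomputable instance : Fintype (Fxd P) := (Fxd_finite P).fintype

/-- number of fixed states -/
noncomputable def NF : ℕ := Fintype.card (Fxd P)

/-- enumeration of the fixed states -/
noncomputable def ef : Fxd P ≃ Fin (NF P) := Fintype.equivFin _

/-- state with a given number -/
noncomputable def ic (k : ℕ) : Qs S :=
  if h : k < NF P then ((ef P).symm ⟨k, h⟩ : Qs S) else .sd (w0.drop (k - NF P))

open Classical in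
/-- number of a state -/
noncomputable def ci (q : Qs S) : ℕ :=
  if h : q ∈ Fxd P then (ef P ⟨q, h⟩ : ℕ) else match q with
    | .sd l => NF P + (w0.length - l.length)
    | _ => 0

/-- number of a letter -/
noncomputable def cl : Lt S → ℕ
  | .sh => 0
  | .lf => 1
  | .bl => 2
  | .sy s => 3 + (Fintype.equivFin S s : ℕ)

/-- letter with a given number -/
noncomputable def lc (a : ℕ) : Lt S :=
  if a = 0 then .sh else if a = 1 then .lf else if a = 2 then .bl else
    if h : a - 3 < Fintype.card S then .sy ((Fintype.equivFin S).symm ⟨a - 3, h⟩) else .bl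

/-- admissible states -/
def Adm (q : Qs S) : Prop := q ∈ Fxd P ∨ ∃ l, l <:+ w0 ∧ q = .sd l

variable {P w0}

theorem not_Fxd_sd (l : List S) : (.sd l : Qs S) ∉ Fxd P := id

theorem ic_ci {q : Qs S} (h : Adm P w0 q) : ic P w0 (ci P w0 q) = q := by
  rcases h with h | ⟨l, hl, rfl⟩
  · unfold ci ic
    rw [dif_pos h]
    simp
  · unfold ci ic
    rw [dif_neg (not_Fxd_sd l)]
    simp only [Nat.not_lt.2 (Nat.le_add_right _ _), dif_neg, not_false_eq_true]
    obtain ⟨t, rfl⟩ := hl
    simp

theorem ci_lt {q : Qs S} (h : Adm P w0 q) : ci P w0 q < NF P + (w0.length + 1) := by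
  rcases h with h | ⟨l, hl, rfl⟩
  · unfold ci
    rw [dif_pos h]
    exact (ef P ⟨q, h⟩).2.trans_le (Nat.le_add_right _ _)
  · unfold ci
    rw [dif_neg (not_Fxd_sd l)]
    show NF P + (w0.length - l.length) < _
    omega

theorem ic_adm (k : ℕ) : Adm P w0 (ic P w0 k) := by
  unfold ic
  split_ifs with h
  · exact Or.inl ((ef P).symm ⟨k, h⟩).2
  · exact Or.inr ⟨_, List.drop_suffix _ _, rfl⟩

theorem ic_inj {k k' : ℕ} (h : k < NF P + (w0.length + 1)) (h' : k' < NF P + (w0.length + 1))
    (he : ic P w0 k = ic P w0 k') : k = k' := by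
  unfold ic at he
  split_ifs at he with h1 h2 h2
  · have := (ef P).symm.injective (Subtype.ext he)
    simpa using this
  · have : (.sd (w0.drop (k' - NF P)) : Qs S) ∈ Fxd P := by
      rw [← he]
      exact ((ef P).symm ⟨k, h1⟩).2
    exact absurd this (not_Fxd_sd _)
  · have : (.sd (w0.drop (k - NF P)) : Qs S) ∈ Fxd P := by
      rw [he]
      exact ((ef P).symm ⟨k', h2⟩).2
    exact absurd this (not_Fxd_sd _)
  · rw [Qs.sd.injEq] at he
    have := congrArg List.length he
    simp only [List.length_drop] at this
    omega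

theorem lc_cl (a : Lt S) : lc (cl a) = a := by
  cases a with
  | sh => rfl
  | lf => rfl
  | bl => rfl
  | sy s =>
    have h0 : ¬ (3 + (Fintype.equivFin S s : ℕ) = 0) := by omega
    have h1 : ¬ (3 + (Fintype.equivFin S s : ℕ) = 1) := by omega
    have h2 : ¬ (3 + (Fintype.equivFin S s : ℕ) = 2) := by omega
    unfold cl lc
    rw [if_neg h0, if_neg h1, if_neg h2]
    simp

theorem cl_lt (a : Lt S) : cl a < Fintype.card S + 3 := by
  cases a with
  | sh => simp [cl]
  | lf => simp [cl]
  | bl => simp [cl]
  | sy s =>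
    have := (Fintype.equivFin S s).2
    simp only [cl]
    omega

theorem le_Bd (x y : S) : (P x y).length ≤ Bd P :=
  Finset.le_sup (f := fun x : S × S => (P x.1 x.2).length) (Finset.mem_univ (x, y))

theorem adm_dl {q : Qs S} (h : Adm P w0 q) (a : Lt S) : Adm P w0 (dl P w0 q a) := by
  by_cases ha : a = .sh
  · subst ha
    rw [dl_sh]
    exact Or.inl trivial
  · rcases h with h | ⟨l, hl, rfl⟩
    · cases q with
      | idt => cases a <;> exact Or.inl trivial
      | w => cases a <;> exact Or.inl trivial
      | ini =>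
        cases a with
        | sh => exact absurd rfl ha
        | _ => exact Or.inr ⟨w0, List.suffix_refl _, rfl⟩
      | skip => cases a <;> exact Or.inl trivial
      | rd x =>
        cases a with
        | sh => exact absurd rfl ha
        | lf => exact Or.inl trivial
        | bl => exact Or.inl (Nat.zero_le _)
        | sy y => exact Or.inl (le_Bd x y)
      | ps l =>
        have h1 : l.length ≤ Bd P := h
        cases a with
        | sh => exact absurd rfl ha
        | lf => exact Or.inl trivial
        | bl =>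
          left
          show l.tail.length ≤ Bd P
          rw [List.length_tail]
          omega
        | sy y => exact Or.inl h1
      | ap l =>
        have h1 : l.length ≤ Bd P := h
        have h2 : l.tail.length ≤ Bd P := by
          rw [List.length_tail]
          omega
        cases a with
        | sh => exact absurd rfl ha
        | lf => exact Or.inl trivial
        | bl => exact Or.inl h2
        | sy y => exact Or.inl h2
      | sd l => exact absurd h id
    · have h3 : l.tail <:+ w0 := (List.tail_suffix l).trans hl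
      cases a with
      | sh => exact absurd rfl ha
      | lf => exact Or.inr ⟨w0, List.suffix_refl _, rfl⟩
      | bl => exact Or.inr ⟨_, h3, rfl⟩
      | sy y => exact Or.inr ⟨_, h3, rfl⟩

variable (P w0)

/-- the row of the state with number `k` -/
noncomputable def row (k : ℕ) : List (ℕ × ℕ) :=
  (List.range (Fintype.card S + 3)).map fun a =>
    (ci P w0 (dl P w0 (ic P w0 k) (lc a)), cl (la (ic P w0 k) (lc a)))

/-- the table -/
noncomputable def tab : List (List (ℕ × ℕ)) :=
  (List.range (NF P + (w0.length + 1))).map (row P w0)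

theorem tab_length : (tab P w0).length = NF P + (w0.length + 1) := by
  simp [tab]

theorem valid_tab : Valid (tab P w0) (Fintype.card S + 3) := by
  refine ⟨by rw [tab_length]; omega, by omega, ?_⟩
  intro r hr
  unfold tab at hr
  rw [List.mem_map] at hr
  obtain ⟨k, _, rfl⟩ := hr
  refine ⟨by simp [row], ?_⟩
  intro x hx
  unfold row at hx
  rw [List.mem_map] at hx
  obtain ⟨a, _, rfl⟩ := hx
  rw [tab_length]
  exact ⟨ci_lt (adm_dl (ic_adm k) _), cl_lt _⟩

theorem tab_get (k a : ℕ) (hk : k < (tab P w0).length) (ha : a < ((tab P w0)[k]).length) :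
    ((tab P w0)[k])[a] =
      (ci P w0 (dl P w0 (ic P w0 k) (lc a)), cl (la (ic P w0 k) (lc a))) := by
  simp [tab, row]

/-- the table gives a copy -/
noncomputable def rep : Rep (ofTable (tab P w0) (Fintype.card S + 3) (valid_tab P w0)) P w0 where
  ι q := ic P w0 q
  d a := lc a
  hι := by
    intro q q' h
    have h1 := lt_of_lt_of_eq q.2 (tab_length P w0)
    have h2 := lt_of_lt_of_eq q'.2 (tab_length P w0)
    exact Fin.ext (ic_inj h1 h2 h)
  hd := by
    intro a
    exact ⟨⟨cl a, cl_lt a⟩, lc_cl a⟩
  hδ := by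
    intro q a
    show ic P w0 (((tab P w0)[(q : ℕ)])[(a : ℕ)]'_).1 = _
    rw [tab_get]
    exact ic_ci (adm_dl (ic_adm _) _)
  hl := by
    intro q a
    show lc (((tab P w0)[(q : ℕ)])[(a : ℕ)]'_).2 = _
    rw [tab_get]
    exact lc_cl _
  q0 := ⟨ci P w0 .idt, by rw [tab_length]; exact ci_lt (Or.inl trivial)⟩
  h0 := ic_ci (Or.inl trivial)
  q1 := ⟨ci P w0 .w, by rw [tab_length]; exact ci_lt (Or.inl trivial)⟩
  h1 := ic_ci (Or.inl trivial)
  q2 := ⟨ci P w0 .ini, by rw [tab_length]; exact ci_lt (Or.inl trivial)⟩
  h2 := ic_ci (Or.inl trivial)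
  q3 := ⟨ci P w0 .skip, by rw [tab_length]; exact ci_lt (Or.inl trivial)⟩
  h3 := ic_ci (Or.inl trivial)

/-! ### The table is a computable function of the seed -/

theorem row_fixed {k : ℕ} (hk : k < NF P) : row P w0 k = row P [] k := by
  unfold row
  refine List.map_congr_left fun a _ => ?_
  have h1 : ic P w0 k = ic P [] k := by
    unfold ic
    rw [dif_pos hk, dif_pos hk]
  rw [h1]
  congr 1
  have h2 : ic P [] k ∈ Fxd P := by
    unfold ic
    rw [dif_pos hk]
    exact ((ef P).symm ⟨k, hk⟩).2
  generalize ic P [] k = q at h2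
  generalize (lc a : Lt S) = b
  have key : ∀ q : Qs S, q ∈ Fxd P → ci P w0 q = ci P [] q := by
    intro q hq
    unfold ci
    rw [dif_pos hq, dif_pos hq]
  have key2 : ci P w0 (.sd w0) = ci P [] (.sd []) := by
    unfold ci
    rw [dif_neg (not_Fxd_sd _), dif_neg (not_Fxd_sd _)]
    simp
  have key3 : ∀ q' : Qs S, Adm P [] q' → (∀ l, q' ≠ .sd l) → q' ∈ Fxd P := by
    rintro q' (h | ⟨l, _, rfl⟩) h3
    · exact h
    · exact absurd rfl (h3 l)
  have h4 : Adm P [] (dl P [] q b) := adm_dl (Or.inl h2) b
  cases q with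
  | ini => cases b <;> first | exact key2 | exact key _ trivial
  | sd l => exact absurd h2 id
  | idt => cases b <;> exact key _ trivial
  | w => cases b <;> exact key _ trivial
  | skip => cases b <;> exact key _ trivial
  | rd x => cases b <;> exact key _ (key3 _ h4 (by intro l; simp [dl]))
  | ps x => cases b <;> exact key _ (key3 _ h4 (by intro l; simp [dl]))
  | ap x => cases b <;> exact key _ (key3 _ h4 (by intro l; simp [dl]))

theorem row_seed {i : ℕ} (hi : i ≤ w0.length) : row P w0 (NF P + i) =
    (ci P [] .idt, if i < w0.length then 2 else 0) :: (NF P, 1) ::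
      (List.range (Fintype.card S + 1)).map (fun _ =>
        if i < w0.length then
          (NF P + (i + 1), 3 + (w0.map fun x => (Fintype.equivFin S x : ℕ)).getD i 0)
        else (NF P + i, 2)) := by
  have h1 : ic P w0 (NF P + i) = .sd (w0.drop i) := by
    unfold ic
    rw [dif_neg (by omega)]
    simp
  have hidt : ci P w0 .idt = ci P [] .idt := by
    have h : (.idt : Qs S) ∈ Fxd P := trivial
    unfold ci
    rw [dif_pos h]
  have hw0 : ci P w0 (.sd w0) = NF P := by
    unfold ci
    rw [dif_neg (not_Fxd_sd _)]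
    simp
  unfold row
  rw [h1, show Fintype.card S + 3 = (Fintype.card S + 1) + 1 + 1 from rfl, List.range_succ_eq_map,
    List.range_succ_eq_map]
  simp only [List.map_cons, List.map_map]
  have e0 : (lc 0 : Lt S) = .sh := rfl
  have e1 : (lc (Nat.succ 0) : Lt S) = .lf := rfl
  rw [e0, e1]
  have e2 : ∀ a : ℕ, ∃ b : Lt S, lc (Nat.succ (Nat.succ a)) = b ∧ b ≠ .sh ∧ b ≠ .lf := by
    intro a
    refine ⟨_, rfl, ?_, ?_⟩
    · unfold lc
      rw [if_neg (by simp), if_neg (by simp)]
      split_ifs <;> simp
    · unfold lc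
      rw [if_neg (by simp), if_neg (by simp)]
      split_ifs <;> simp
  congr 1
  · rw [dl_sh, hidt]
    congr 1
    rcases hd : w0.drop i with _ | ⟨x, l⟩
    · rw [if_neg]
      · rfl
      · rw [List.drop_eq_nil_iff] at hd
        omega
    · rw [if_pos]
      · rfl
      · by_contra h
        rw [List.drop_of_length_le (by omega)] at hd
        simp at hd
  · congr 1
    · show (ci P w0 (.sd w0), cl (.lf : Lt S)) = _
      rw [hw0]
      rfl
    · refine List.map_congr_left fun a _ => ?_
      obtain ⟨b, hb, hb1, hb2⟩ := e2 a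
      simp only [Function.comp_apply]
      rw [hb]
      have h3 : dl P w0 (.sd (w0.drop i)) b = .sd (w0.drop i).tail ∧
          la (.sd (w0.drop i)) b = lwr .bl (w0.drop i) := by
        cases b with
        | sh => exact absurd rfl hb1
        | lf => exact absurd rfl hb2
        | bl => exact ⟨rfl, rfl⟩
        | sy s => exact ⟨rfl, rfl⟩
      rw [h3.1, h3.2]
      split_ifs with h4
      · congr 1
        · unfold ci
          rw [dif_neg (not_Fxd_sd _)]
          simp only [List.length_tail, List.length_drop]
          omega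
        · rw [List.drop_eq_getElem_cons h4]
          simp [lwr, cl, h4]
      · have h5 : i = w0.length := by omega
        subst h5
        rw [List.drop_length]
        congr 1
        unfold ci
        rw [dif_neg (not_Fxd_sd _)]
        simp

/-- the table as an explicit function of the seed -/
noncomputable def tabF (w : List ℕ) : List (List (ℕ × ℕ)) :=
  (List.range (NF P)).map (row P []) ++
    (List.range (w.length + 1)).map (fun i =>
      (ci P [] .idt, if i < w.length then 2 else 0) :: (NF P, 1) ::
      (List.range (Fintype.card S + 1)).map (fun _ =>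
        if i < w.length then (NF P + (i + 1), 3 + w.getD i 0) else (NF P + i, 2)))

theorem tab_eq : tab P w0 = tabF P (w0.map fun x => (Fintype.equivFin S x : ℕ)) := by
  unfold tab tabF
  rw [List.range_add, List.map_append]
  congr 1
  · refine List.map_congr_left fun k hk => ?_
    exact row_fixed P w0 (List.mem_range.1 hk)
  · rw [List.map_map]
    simp only [List.length_map]
    refine List.map_congr_left fun i hi => ?_
    rw [List.mem_range] at hi
    exact row_seed P w0 (by omega)

theorem primrec_tabF : Primrec (tabF P) := by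
  unfold tabF
  refine Primrec.list_append.comp (Primrec.const _) ?_
  refine Primrec.list_map (Primrec.list_range.comp (Primrec.succ.comp Primrec.list_length)) ?_
  have hlt : PrimrecPred (fun x : List ℕ × ℕ => x.2 < x.1.length) :=
    Primrec.nat_lt.comp Primrec.snd (Primrec.list_length.comp Primrec.fst)
  refine Primrec.list_cons.comp (Primrec.pair (Primrec.const _)
    (Primrec.ite hlt (Primrec.const _) (Primrec.const _))) ?_
  refine Primrec.list_cons.comp (Primrec.const _) ?_
  refine Primrec.list_map (Primrec.const _) ?_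
  have hlt2 : PrimrecPred (fun x : (List ℕ × ℕ) × ℕ => x.1.2 < x.1.1.length) :=
    Primrec.nat_lt.comp (Primrec.snd.comp Primrec.fst)
      (Primrec.list_length.comp (Primrec.fst.comp Primrec.fst))
  refine Primrec.ite hlt2 ?_ ?_
  · refine Primrec.pair (Primrec.nat_add.comp (Primrec.const _)
      (Primrec.succ.comp (Primrec.snd.comp Primrec.fst))) ?_
    exact Primrec.nat_add.comp (Primrec.const _)
      ((Primrec.list_getD 0).comp (Primrec.fst.comp Primrec.fst) (Primrec.snd.comp Primrec.fst))
  · exact Primrec.pair (Primrec.nat_add.comp (Primrec.const _) (Primrec.snd.comp Primrec.fst))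
      (Primrec.const _)

end tab

end Pool.Agent.R569.WR
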